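import Mathlib
import Pool.Agent.Helper55.ForestDefs
import Pool.Agent.Helper55.Forest

open Pool.Agent.Helper55.ForestDefs

namespace Pool.Agent.Results.MP_b83ca4_nt.MinTwo

/-- The smallest `k ≥ 1` for which some union of `k` rotated and translated copies of the
triangular lattice is a dense forest is `k = 2`. -/
theorem result :
    IsLeast {k : ℕ | 1 ≤ k ∧ ∃ (x : Fin k → ℂ) (θ : Fin k → ℝ), IsDenseForest (TBG k x θ)} 2 :=
  Pool.Agent.Helper55.Forest.isLeast_two

end Pool.Agent.Results.MP_b83ca4_nt.MinTwo
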