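import Mathlib
import Pool.Agent.Helper55.ForestDefs
import Pool.Agent.Helper55.Forest

open Pool.Agent.Helper55.ForestDefs

namespace Pool.Agent.Results.MP_b83ca4_nt.NoUniformlyDiscrete

/-- For no number `k` of copies (in particular not for `k = 3`) is there a union of `k` rotated
and translated copies of the triangular lattice that is a uniformly discrete dense forest. -/
theorem result (k : ℕ) (x : Fin k → ℂ) (θ : Fin k → ℝ) :
    ¬ (IsUniformlyDiscrete (TBG k x θ) ∧ IsDenseForest (TBG k x θ)) :=
  Pool.Agent.Helper55.Forest.not_ud_and_forest k x θ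

end Pool.Agent.Results.MP_b83ca4_nt.NoUniformlyDiscrete
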